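import Pool.Agent.H542.EL.E3

/-!
The main theorem for functions bounded by two; functions of `Ω` and of the prime signature at two points.
-/

set_option autoImplicit false

namespace Pool.Agent.H542.EL

open Finset Polynomial Filter
open Pool.Agent.Y958.U (LZ)
open Pool.Agent.Helper602.MK (ee)
open Pool.Agent.H542.FS (SupT)
open Pool.Agent.H542.PC (en LamC)
open Pool.Agent.Results.MP_e0aac0_nt.ColouredSignatureAndOmega (sig Om Mult mean)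

theorem main2 {ι : Type} [Countable ι] [Nonempty ι] (E : Set ℕ) (hE : LZ E) (F : ι → ℤ → ℂ) (P : ι → Prop)
    (hn : ∀ j, P j → ∀ n, ‖F j n‖ ≤ 2) (hF : ∀ j, P j → SupT E (F j)) :
    ∃ B : Set ℕ, LZ B ∧ ∀ j, P j →
    ∀ (f : ℤ[X]), 1 ≤ f.natDegree → ∀ (K : ℕ) (ε : ℝ), 0 < ε →
      (∃ t₀ : ℕ, ∀ t : ℕ, t₀ ≤ t → t ∉ B → ∀ x : ℕ, x ^ f.natDegree ≤ K * t →
        ‖∑ m ∈ Icc 1 x, F j (t + f.eval (m : ℤ))‖ ^ f.natDegree ≤ ε * t ∧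
        ‖∑ m ∈ Icc 1 x, LamC m * F j (t + f.eval (m : ℤ))‖ ^ f.natDegree ≤ ε * t) ∧
      (∃ N₀ : ℕ, ∀ N : ℕ, N₀ ≤ N → N ∉ E → ∀ y : ℕ, N ≤ y ^ f.natDegree → y ^ f.natDegree ≤ K * N →
        (∀ w : ℕ → ℂ, (∀ m, ‖w m‖ ≤ 1) →
          ∑ t ∈ Icc 1 N, ‖∑ m ∈ Icc 1 y, w m * F j (t + f.eval (m : ℤ))‖ ^ 2 ≤ ε * N * (y : ℝ) ^ 2) ∧
        ∀ A : Finset ℕ, A ⊆ Icc 1 N →
          ‖∑ t ∈ A, ∑ m ∈ Icc 1 y, LamC m * F j (t + f.eval (m : ℤ))‖ ≤ ε * N * y) := by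
  obtain ⟨B, hB, h⟩ := main_abs E hE (fun j n => F j n / 2) P (fun j hj n => by
      rw [norm_div]
      have := hn j hj n
      rw [show ‖(2 : ℂ)‖ = 2 by simp]
      linarith) (fun j hj C ε hε => by
      obtain ⟨N₀, h1⟩ := hF j hj C ε hε
      refine ⟨N₀, fun N hN hNE M hM α => ?_⟩
      obtain ⟨h2, h3⟩ := h1 N hN hNE M hM α
      have e1 : ∀ u : ℕ → ℤ, ‖∑ n ∈ Icc 1 M, F j (u n) / 2 * ee (α * n)‖ ≤ ‖∑ n ∈ Icc 1 M, F j (u n) * ee (α * n)‖ := by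
        intro u
        have e2 : ∑ n ∈ Icc 1 M, F j (u n) / 2 * ee (α * n) = (∑ n ∈ Icc 1 M, F j (u n) * ee (α * n)) / 2 := by
          rw [sum_div]
          exact sum_congr rfl fun n _ => by ring
        rw [e2, norm_div, show ‖(2 : ℂ)‖ = 2 by simp]
        have := norm_nonneg (∑ n ∈ Icc 1 M, F j (u n) * ee (α * n))
        linarith
      exact ⟨(e1 _).trans h2, (e1 _).trans h3⟩)
  refine ⟨B, hB, fun j hj f hf K ε hε => ?_⟩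
  have h2 := (h j hj).2 f hf K
  have hs1 : ∀ (t : ℕ) (S : Finset ℕ) (w : ℕ → ℂ), ∑ m ∈ S, w m * F j (t + f.eval (m : ℤ)) =
      2 * ∑ m ∈ S, w m * (F j (t + f.eval (m : ℤ)) / 2) := by
    intro t S w
    rw [mul_sum]
    exact sum_congr rfl fun m _ => by ring
  have hs0 : ∀ (t : ℕ) (S : Finset ℕ), ∑ m ∈ S, F j (t + f.eval (m : ℤ)) =
      2 * ∑ m ∈ S, F j (t + f.eval (m : ℤ)) / 2 := by
    intro t S
    rw [mul_sum]
    exact sum_congr rfl fun m _ => by ring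
  refine ⟨?_, ?_⟩
  · obtain ⟨t₀, h3⟩ := (h2 (ε / 2 ^ f.natDegree) (by positivity)).1
    refine ⟨t₀, fun t ht htB x hx => ?_⟩
    obtain ⟨h4, h5⟩ := h3 t ht htB x hx
    have e1 : ∀ z : ℂ, ‖z‖ ^ f.natDegree ≤ ε / 2 ^ f.natDegree * t → ‖2 * z‖ ^ f.natDegree ≤ ε * t := by
      intro z hz
      rw [norm_mul, show ‖(2 : ℂ)‖ = 2 by simp, mul_pow]
      calc (2 : ℝ) ^ f.natDegree * ‖z‖ ^ f.natDegree ≤ 2 ^ f.natDegree * (ε / 2 ^ f.natDegree * t) :=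
            mul_le_mul_of_nonneg_left hz (by positivity)
        _ = ε * t := by field_simp
    rw [hs0, hs1]
    exact ⟨e1 _ h4, e1 _ h5⟩
  · obtain ⟨N₀, h3⟩ := (h2 (ε / 4) (by positivity)).2
    refine ⟨N₀, fun N hN hNE y hy1 hy2 => ⟨fun w hw => ?_, fun A hA => ?_⟩⟩
    · have h4 := (h3 N hN hNE y hy1 hy2).1 w hw
      have e1 : ∀ t ∈ Icc 1 N, ‖∑ m ∈ Icc 1 y, w m * F j (t + f.eval (m : ℤ))‖ ^ 2 =
          4 * ‖∑ m ∈ Icc 1 y, w m * (F j (t + f.eval (m : ℤ)) / 2)‖ ^ 2 := by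
        intro t _
        rw [hs1, norm_mul, show ‖(2 : ℂ)‖ = 2 by simp]
        ring
      rw [sum_congr rfl e1, ← mul_sum]
      calc 4 * ∑ t ∈ Icc 1 N, ‖∑ m ∈ Icc 1 y, w m * (F j (t + f.eval (m : ℤ)) / 2)‖ ^ 2
          ≤ 4 * (ε / 4 * N * (y : ℝ) ^ 2) := mul_le_mul_of_nonneg_left h4 (by norm_num)
        _ = _ := by ring
    · have h4 := ((h3 N hN hNE y hy1 hy2).2 A ∅ hA (empty_subset _)).2
      have e1 : ∑ t ∈ A, ∑ m ∈ Icc 1 y, LamC m * F j (t + f.eval (m : ℤ)) =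
          2 * ∑ t ∈ A, ∑ m ∈ Icc 1 y, LamC m * (F j (t + f.eval (m : ℤ)) / 2) := by
        rw [mul_sum]
        exact sum_congr rfl fun t _ => hs1 t _ _
      rw [e1, norm_mul, show ‖(2 : ℂ)‖ = 2 by simp]
      calc 2 * ‖∑ t ∈ A, ∑ m ∈ Icc 1 y, LamC m * (F j (t + f.eval (m : ℤ)) / 2)‖ ≤ 2 * (ε / 4 * N * y) :=
            mul_le_mul_of_nonneg_left h4 (by norm_num)
        _ ≤ ε * N * y := by
            have : 0 ≤ ε * N * y := by positivity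
            linarith

end Pool.Agent.H542.EL
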